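import Pool.Agent.H378R3.ND.Frame

/-! Costs of forbidden windows and of squares for the counting frame of `H378R3.ND.Frame`. -/

set_option autoImplicit false

namespace Pool.Agent.H565.Win
open Finset Pool.Agent.H378R3.ND
open scoped Classical

noncomputable section

variable {ok : ℕ → (ℕ → ℕ) → Prop} {ℒ : ℕ → Finset ℕ}

/-- the window of length `s` of `c` starting at place `i` -/
def wn (s : ℕ) (c : ℕ → ℕ) (i : ℕ) : List ℕ := (List.range s).map (fun r => c (i + r))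

lemma wn_getD (s : ℕ) (c : ℕ → ℕ) (i r : ℕ) (hr : r < s) : (wn s c i).getD r 0 = c (i + r) := by
  simp [wn, List.getD, hr]

lemma wn_rev_getD (s : ℕ) (c : ℕ → ℕ) (i r : ℕ) (hr : r < s) :
    (wn s c i).reverse.getD r 0 = c (i + (s - 1 - r)) := by
  have h1 : r < (wn s c i).reverse.length := by simp [wn, hr]
  rw [List.getD_eq_getElem _ _ h1, List.getElem_reverse]
  simp [wn]

/-- the last window of `c 0, ..., c m` is in `F` or is equal to an earlier disjoint window, forward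
or reversed -/
def winBad (s : ℕ) (F : Finset (List ℕ)) (m : ℕ) (c : ℕ → ℕ) : Prop :=
  s ≤ m + 1 ∧ (wn s c (m + 1 - s) ∈ F ∨ ∃ i, i + s ≤ m + 1 - s ∧
    (wn s c (m + 1 - s) = wn s c i ∨ wn s c (m + 1 - s) = (wn s c i).reverse))

lemma winBad_local (s : ℕ) (F : Finset (List ℕ)) (hs : 1 ≤ s) :
    Local (fun p c => ¬ winBad s F p c) := by
  intro p c c' h hc hb
  apply hc
  obtain ⟨h0, h1⟩ := hb
  have hw : ∀ i, i + s ≤ p + 1 → wn s c i = wn s c' i := by
    intro i hi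
    unfold wn
    apply List.map_congr_left
    intro r hr
    rw [List.mem_range] at hr
    exact h _ (by omega)
  refine ⟨h0, ?_⟩
  rcases h1 with h1 | ⟨i, hi, h1⟩
  · left; rw [hw _ (by omega)]; exact h1
  · right
    refine ⟨i, hi, ?_⟩
    rw [hw _ (by omega), hw i (by omega)]; exact h1

/-- generic cost: a family of determination functions -/
lemma union_bound {ι : Type*} (hloc : Local ok) (I : Finset ι) (m j : ℕ) (hj : j ≤ m)
    (D : ι → (ℕ → ℕ) → ℕ → ℕ) (bad : (ℕ → ℕ) → Prop)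
    (hD : ∀ c ∈ U ok ℒ m, bad c → ∃ a ∈ I, ∀ k, j ≤ k → k < m + 1 → c k = D a (trunc j c) k)
    (f g : (ℕ → ℕ) → ℚ) (hfg : ∀ c ∈ U ok ℒ m, bad c → f c ≤ g (trunc j c))
    (hg : ∀ v ∈ W ok ℒ j, 0 ≤ g v) :
    ∑ c ∈ (U ok ℒ m).filter bad, f c ≤ (I.card : ℚ) * ∑ v ∈ W ok ℒ j, g v := by
  by_cases hne : ∃ c ∈ U ok ℒ m, bad c
  swap
  · push Not at hne
    rw [filter_eq_empty_iff.mpr (fun c hc => hne c hc), sum_empty]
    exact mul_nonneg (by positivity) (sum_nonneg hg)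
  obtain ⟨c0, hc0, hb0⟩ := hne
  obtain ⟨a0, ha0, _⟩ := hD c0 hc0 hb0
  set α : (ℕ → ℕ) → ι := fun c => if h : ∃ a ∈ I, ∀ k, j ≤ k → k < m + 1 → c k = D a (trunc j c) k
    then h.choose else a0 with hα
  have hα1 : ∀ c ∈ (U ok ℒ m).filter bad, α c ∈ I := by
    intro c hc
    rw [mem_filter] at hc
    have h := hD c hc.1 hc.2
    simp only [hα, dif_pos h]
    exact h.choose_spec.1
  rw [← sum_fiberwise_of_maps_to hα1 f]
  calc ∑ a ∈ I, ∑ c ∈ ((U ok ℒ m).filter bad).filter (fun c => α c = a), f c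
      ≤ ∑ a ∈ I, ∑ v ∈ W ok ℒ j, g v := by
        apply sum_le_sum
        intro a _
        refine inj_bound (m := m + 1) (j := j) (D a) ?_ ?_ ?_ f g ?_ hg
        · intro c hc k hk
          rw [mem_filter, mem_filter, mem_U] at hc
          exact hc.1.1.1.2 k hk
        · intro c hc
          rw [mem_filter, mem_filter] at hc
          exact trunc_U hloc hc.1.1 hj
        · intro c hc k hk hk'
          rw [mem_filter, mem_filter] at hc
          have h := hD c hc.1.1 hc.1.2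
          have h2 := h.choose_spec.2 k hk hk'
          have h3 : α c = h.choose := by simp only [hα, dif_pos h]
          rw [← hc.2, h3]
          exact h2
        · intro c hc
          rw [mem_filter, mem_filter] at hc
          exact hfg c hc.1.1 hc.1.2
    _ = (I.card : ℚ) * ∑ v ∈ W ok ℒ j, g v := by
        rw [sum_const, nsmul_eq_mul]

/-- cost of forbidden windows, weighted -/
theorem win_cost_w (hloc : Local ok) (s : ℕ) (hs : 1 ≤ s) (F : Finset (List ℕ)) (m : ℕ)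
    (hsm : s ≤ m + 1) (f g : (ℕ → ℕ) → ℚ)
    (hfg : ∀ c ∈ U ok ℒ m, winBad s F m c → f c ≤ g (trunc (m + 1 - s) c))
    (hg : ∀ v ∈ W ok ℒ (m + 1 - s), 0 ≤ g v) :
    ∑ c ∈ (U ok ℒ m).filter (winBad s F m), f c ≤
      ((F.card : ℚ) + 2 * ((m : ℚ) + 1)) * ∑ v ∈ W ok ℒ (m + 1 - s), g v := by
  set j := m + 1 - s with hjd
  have key := union_bound (ok := ok) (ℒ := ℒ) hloc
    (F.disjSum ((range (m + 1)).disjSum (range (m + 1)))) m j (by omega)
    (fun a v k => Sum.elim (fun w : List ℕ => w.getD (k - j) 0)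
      (Sum.elim (fun i => v (i + (k - j))) (fun i => v (i + (s - 1 - (k - j))))) a)
    (winBad s F m) ?_ f g hfg hg
  · refine key.trans (le_of_eq ?_)
    congr 1
    rw [card_disjSum, card_disjSum, card_range]
    push_cast; ring
  · intro c hc hb
    obtain ⟨_, hb⟩ := hb
    rw [← hjd] at hb
    rcases hb with hb | ⟨i, hi, hb | hb⟩
    · refine ⟨Sum.inl (wn s c j), ?_, ?_⟩
      · rw [inl_mem_disjSum]; exact hb
      · intro k hk hk'
        simp only [Sum.elim_inl]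
        rw [wn_getD _ _ _ _ (by omega)]
        congr 1; omega
    · refine ⟨Sum.inr (Sum.inl i), ?_, ?_⟩
      · rw [inr_mem_disjSum, inl_mem_disjSum, mem_range]; omega
      · intro k hk hk'
        simp only [Sum.elim_inl, Sum.elim_inr]
        have h1 := congrArg (fun l => List.getD l (k - j) 0) hb
        rw [wn_getD _ _ _ _ (by omega), wn_getD _ _ _ _ (by omega)] at h1
        have h2 : i + (k - j) < j := by omega
        simp only [trunc, if_pos h2]
        rw [← h1]; congr 1; omega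
    · refine ⟨Sum.inr (Sum.inr i), ?_, ?_⟩
      · rw [inr_mem_disjSum, inr_mem_disjSum, mem_range]; omega
      · intro k hk hk'
        simp only [Sum.elim_inr]
        have h1 := congrArg (fun l => List.getD l (k - j) 0) hb
        rw [wn_getD _ _ _ _ (by omega), wn_rev_getD _ _ _ _ (by omega)] at h1
        have h2 : i + (s - 1 - (k - j)) < j := by omega
        simp only [trunc, if_pos h2]
        rw [← h1]; congr 1; omega

/-- cost of forbidden windows -/
theorem win_cost (hloc : Local ok) (s : ℕ) (hs : 1 ≤ s) (F : Finset (List ℕ)) (m : ℕ)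
    (hsm : s ≤ m + 1) (f : (ℕ → ℕ) → ℚ) (hf : ∀ c ∈ U ok ℒ m, f c ≤ 1) :
    ∑ c ∈ (U ok ℒ m).filter (winBad s F m), f c ≤
      ((F.card : ℚ) + 2 * ((m : ℚ) + 1)) * N ok ℒ (m + 1 - s) := by
  have := win_cost_w (ok := ok) (ℒ := ℒ) hloc s hs F m hsm f (fun _ => 1)
    (fun c hc _ => hf c hc) (fun _ _ => zero_le_one)
  rw [N_eq]; exact this

/-- the last `2 t` letters of `c 0, ..., c m` form a square -/
def sqAt (t m : ℕ) (c : ℕ → ℕ) : Prop := 2 * t ≤ m + 1 ∧ ∀ k, m + 1 - t ≤ k → k ≤ m → c k = c (k - t)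

/-- cost of squares of half-length `t`, weighted; `bad` is any condition implying the square -/
theorem sq_cost_w (hloc : Local ok) (t : ℕ) (ht : 1 ≤ t) (m : ℕ) (bad : (ℕ → ℕ) → Prop)
    (hbad : ∀ c ∈ U ok ℒ m, bad c → sqAt t m c) (f g : (ℕ → ℕ) → ℚ)
    (hfg : ∀ c ∈ U ok ℒ m, bad c → f c ≤ g (trunc (m + 1 - t) c))
    (hg : ∀ v ∈ W ok ℒ (m + 1 - t), 0 ≤ g v) :
    ∑ c ∈ (U ok ℒ m).filter bad, f c ≤ ∑ v ∈ W ok ℒ (m + 1 - t), g v := by
  have key := union_bound (ok := ok) (ℒ := ℒ) hloc (range 1) m (m + 1 - t) (by omega)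
    (fun _ v k => v (k - t)) bad ?_ f g hfg hg
  · simpa using key
  · intro c hc hb
    obtain ⟨h2, h⟩ := hbad c hc hb
    refine ⟨0, by simp, fun k hk hk' => ?_⟩
    have h3 : k - t < m + 1 - t := by omega
    simp only [trunc, if_pos h3]
    exact h k hk (by omega)

/-- cost of squares of half-length `t` -/
theorem sq_cost (hloc : Local ok) (t : ℕ) (ht : 1 ≤ t) (m : ℕ) (bad : (ℕ → ℕ) → Prop)
    (hbad : ∀ c ∈ U ok ℒ m, bad c → sqAt t m c) (f : (ℕ → ℕ) → ℚ) (hf : ∀ c ∈ U ok ℒ m, f c ≤ 1) :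
    ∑ c ∈ (U ok ℒ m).filter bad, f c ≤ N ok ℒ (m + 1 - t) := by
  have := sq_cost_w (ok := ok) (ℒ := ℒ) hloc t ht m bad hbad f (fun _ => 1)
    (fun c hc _ => hf c hc) (fun _ _ => zero_le_one)
  rw [N_eq]; exact this

/-- cost of all squares of half-lengths in `[t0, t1)` -/
theorem sqs_cost (hloc : Local ok) (t0 t1 : ℕ) (ht : 1 ≤ t0) (m : ℕ) (f : (ℕ → ℕ) → ℚ)
    (hf0 : ∀ c ∈ U ok ℒ m, 0 ≤ f c) (hf : ∀ c ∈ U ok ℒ m, f c ≤ 1) :
    ∑ c ∈ (U ok ℒ m).filter (fun c => ∃ t, t0 ≤ t ∧ t < t1 ∧ sqAt t m c), f c ≤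
      ∑ t ∈ (Ico t0 t1).filter (fun t => 2 * t ≤ m + 1), N ok ℒ (m + 1 - t) := by
  set J := (Ico t0 t1).filter (fun t => 2 * t ≤ m + 1) with hJ
  set S := (U ok ℒ m).filter (fun c => ∃ t, t0 ≤ t ∧ t < t1 ∧ sqAt t m c) with hS
  set τ : (ℕ → ℕ) → ℕ := fun c => if h : ∃ t, t0 ≤ t ∧ t < t1 ∧ sqAt t m c then h.choose else 0
    with hτ
  have hτ1 : ∀ c ∈ S, τ c ∈ J := by
    intro c hc
    rw [hS, mem_filter] at hc
    have h := hc.2
    simp only [hτ, dif_pos h]
    have h2 := h.choose_spec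
    rw [hJ, mem_filter, mem_Ico]
    exact ⟨⟨h2.1, h2.2.1⟩, h2.2.2.1⟩
  rw [← sum_fiberwise_of_maps_to hτ1 f]
  apply sum_le_sum
  intro t ht'
  rw [hJ, mem_filter, mem_Ico] at ht'
  have h1 : S.filter (fun c => τ c = t) ⊆ (U ok ℒ m).filter (sqAt t m) := by
    intro c hc
    rw [mem_filter, hS, mem_filter] at hc
    rw [mem_filter]
    have h := hc.1.2
    have h2 := h.choose_spec
    have h3 : τ c = h.choose := by simp only [hτ, dif_pos h]
    rw [← h3, hc.2] at h2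
    exact ⟨hc.1.1, h2.2.2⟩
  refine (sum_le_sum_of_subset_of_nonneg h1 ?_).trans
    (sq_cost hloc t (by omega) m (sqAt t m) (fun c _ h => h) f hf)
  intro c hc _
  rw [mem_filter] at hc
  exact hf0 c hc.1

/-- The choice of the window length: for every `β > 1` the windows cost at most `ε`. -/
theorem choose_s (β : ℚ) (hβ : 1 < β) (ε : ℚ) (hε : 0 < ε) (C : ℕ) :
    ∃ s0 : ℕ, ∀ s : ℕ, s0 ≤ s → (C : ℚ) * s * (1 / β) ^ (s - 1) ≤ ε := by
  have h1 : Filter.Tendsto (fun n : ℕ => (n : ℝ) ^ 1 * ((1 / β : ℚ) : ℝ) ^ n) Filter.atTop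
      (nhds 0) := by
    apply tendsto_pow_const_mul_const_pow_of_abs_lt_one
    rw [abs_of_pos (by positivity)]
    have : (1 / β : ℚ) < 1 := by rw [div_lt_one (by linarith)]; exact hβ
    exact_mod_cast this
  have hε' : (0 : ℝ) < (ε : ℝ) / ((C + 1) * β) := by
    have : (0 : ℝ) < ε := by exact_mod_cast hε
    have : (0 : ℝ) < β := by exact_mod_cast (by linarith : (0 : ℚ) < β)
    positivity
  have h2 := h1.eventually (gt_mem_nhds hε')
  rw [Filter.eventually_atTop] at h2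
  obtain ⟨n0, hn0⟩ := h2
  refine ⟨n0 + 1, fun s hs => ?_⟩
  have h3 := hn0 s (by omega)
  have hβ0 : (0 : ℝ) < β := by exact_mod_cast (by linarith : (0 : ℚ) < β)
  have h4 : ((C : ℚ) * s * (1 / β) ^ (s - 1) : ℚ) = C * β * ((s : ℚ) ^ 1 * (1 / β) ^ s) := by
    obtain ⟨k, rfl⟩ : ∃ k, s = k + 1 := ⟨s - 1, by omega⟩
    have : β ≠ 0 := by linarith
    rw [Nat.add_sub_cancel, pow_succ (1 / β) k]
    field_simp
  rw [h4]
  have h5 : ((C * β * ((s : ℚ) ^ 1 * (1 / β) ^ s) : ℚ) : ℝ) ≤ ((ε : ℚ) : ℝ) := by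
    push_cast
    rw [lt_div_iff₀ (by positivity)] at h3
    push_cast at h3
    have h6 : (0 : ℝ) ≤ (s : ℝ) ^ 1 * (1 / (β : ℝ)) ^ s := by positivity
    nlinarith [mul_nonneg h6 hβ0.le]
  exact_mod_cast h5

end
end Pool.Agent.H565.Win
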