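import Pool.Agent.H565.Win.Cost

/-! The weighted recursion of the plain core growth (weights 8/11, no leg rules). -/

set_option autoImplicit false

namespace Pool.Agent.H565.Win
open Finset Pool.Agent.H378R3.ND
open scoped Classical

noncomputable section

variable {ok : ℕ → (ℕ → ℕ) → Prop} {ℒ : ℕ → Finset ℕ}

/-- weight: `8/11` for words ending `xyx` -/
def wt (m : ℕ) (c : ℕ → ℕ) : ℚ := if 3 ≤ m ∧ c (m - 1) = c (m - 3) then 8 / 11 else 1

/-- weighted number of words -/
def S (ok : ℕ → (ℕ → ℕ) → Prop) (ℒ : ℕ → Finset ℕ) (m : ℕ) : ℚ := ∑ c ∈ W ok ℒ m, wt m c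

lemma wt_nonneg (m : ℕ) (c : ℕ → ℕ) : 0 ≤ wt m c := by unfold wt; split_ifs <;> norm_num
lemma wt_le_one (m : ℕ) (c : ℕ → ℕ) : wt m c ≤ 1 := by unfold wt; split_ifs <;> norm_num
lemma wt_ge (m : ℕ) (c : ℕ → ℕ) : 8 / 11 ≤ wt m c := by unfold wt; split_ifs <;> norm_num

lemma S_nonneg (m : ℕ) : 0 ≤ S ok ℒ m := sum_nonneg (fun c _ => wt_nonneg m c)
lemma S_le_N (m : ℕ) : S ok ℒ m ≤ N ok ℒ m := by
  rw [N_eq]; exact sum_le_sum (fun c _ => wt_le_one m c)
lemma N_le_S (m : ℕ) : N ok ℒ m ≤ 11 / 8 * S ok ℒ m := by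
  rw [N_eq, S, mul_sum]
  apply sum_le_sum
  intro c _
  have := wt_ge m c
  linarith

/-- the last five letters are `G` -/
def gBad (G : List ℕ) (m : ℕ) (c : ℕ → ℕ) : Prop := 5 ≤ m + 1 ∧ wn 5 c (m + 1 - 5) = G

/-- `N_m ≤ S_m + (3/11) S_{m-1}` -/
theorem N_le (hloc : Local ok) (hs : ∀ n c, ok n c → ¬ sqAt 2 n c) (m : ℕ) (hm : 4 ≤ m) :
    N ok ℒ m ≤ S ok ℒ m + 3 / 11 * S ok ℒ (m - 1) := by
  have h1 : N ok ℒ m = S ok ℒ m +
      ∑ c ∈ (W ok ℒ m).filter (fun c => c (m - 1) = c (m - 3)), (3 / 11 : ℚ) := by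
    rw [N_eq, S, sum_filter, ← sum_add_distrib]
    apply sum_congr rfl
    intro c _
    unfold wt
    by_cases h : c (m - 1) = c (m - 3)
    · rw [if_pos ⟨by omega, h⟩, if_pos h]; norm_num
    · rw [if_neg (fun h' => h h'.2), if_neg h]; norm_num
  have h2 : ∑ c ∈ (W ok ℒ m).filter (fun c => c (m - 1) = c (m - 3)), (1 : ℚ) ≤
      ∑ v ∈ W ok ℒ (m - 1), wt (m - 1) v := by
    refine inj_bound (m := m) (j := m - 1) (fun v _ => v (m - 3)) ?_ ?_ ?_ _ _ ?_ ?_
    · intro c hc k hk
      rw [mem_filter, mem_W] at hc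
      exact hc.1.1.2 k hk
    · intro c hc
      rw [mem_filter] at hc
      exact trunc_W hloc hc.1 (by omega)
    · intro c hc k hk hk'
      rw [mem_filter] at hc
      have hk2 : k = m - 1 := by omega
      subst hk2
      have : m - 3 < m - 1 := by omega
      simp only [trunc, if_pos this]
      exact hc.2
    · intro c hc
      rw [mem_filter, mem_W] at hc
      unfold wt
      rw [if_neg]
      rintro ⟨_, h⟩
      have e1 : m - 1 - 1 < m - 1 := by omega
      have e2 : m - 1 - 3 < m - 1 := by omega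
      simp only [trunc, if_pos e1, if_pos e2] at h
      apply hs (m - 1) c (hc.1.2 (m - 1) (by omega))
      refine ⟨by omega, fun k hk hk' => ?_⟩
      have : k = m - 1 ∨ k = m - 1 - 1 := by omega
      rcases this with rfl | rfl
      · rw [show m - 1 - 2 = m - 3 by omega]; exact hc.2
      · rw [show m - 1 - 1 - 2 = m - 1 - 3 by omega]; exact h
    · intro v _; exact wt_nonneg _ _
  have h3 : ∑ c ∈ (W ok ℒ m).filter (fun c => c (m - 1) = c (m - 3)), (3 / 11 : ℚ) =
      3 / 11 * ∑ c ∈ (W ok ℒ m).filter (fun c => c (m - 1) = c (m - 3)), (1 : ℚ) := by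
    rw [mul_sum]; simp
  rw [h1, h3]
  have : S ok ℒ (m - 1) = ∑ v ∈ W ok ℒ (m - 1), wt (m - 1) v := rfl
  rw [this]
  linarith

/-- weight zero for words ending with a square of half-length `1` or `2` -/
def wt' (n : ℕ) (c : ℕ → ℕ) : ℚ := if sqAt 1 n c ∨ sqAt 2 n c then 0 else wt (n + 1) c

lemma wt'_nonneg (m : ℕ) (c : ℕ → ℕ) : 0 ≤ wt' m c := by
  unfold wt'; split_ifs
  · exact le_rfl
  · exact wt_nonneg _ _

lemma sq1_iff (n : ℕ) (hn : 1 ≤ n) (c : ℕ → ℕ) : sqAt 1 n c ↔ c n = c (n - 1) := by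
  constructor
  · rintro ⟨_, h⟩; exact h n (by omega) le_rfl
  · intro h
    refine ⟨by omega, fun k hk hk' => ?_⟩
    have : k = n := by omega
    rw [this]; exact h

lemma sq2_iff (n : ℕ) (hn : 3 ≤ n) (c : ℕ → ℕ) :
    sqAt 2 n c ↔ c n = c (n - 2) ∧ c (n - 1) = c (n - 3) := by
  constructor
  · rintro ⟨_, h⟩
    refine ⟨h n (by omega) le_rfl, ?_⟩
    have := h (n - 1) (by omega) (by omega)
    rwa [show n - 1 - 2 = n - 3 by omega] at this
  · rintro ⟨h1, h2⟩
    refine ⟨by omega, fun k hk hk' => ?_⟩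
    have : k = n ∨ k = n - 1 := by omega
    rcases this with rfl | rfl
    · exact h1
    · rw [show n - 1 - 2 = n - 3 by omega]; exact h2

/-- the local inequality -/
lemma local_ineq (L : Finset ℕ) (hL : L.card = 4) (n : ℕ) (hn : 3 ≤ n) (w : ℕ → ℕ) :
    30 / 11 * wt n w ≤ ∑ x ∈ L, wt' n (Function.update w n x) := by
  have u1 : ∀ x, Function.update w n x n = x := fun x => by simp
  have u2 : ∀ x k, k < n → Function.update w n x k = w k := fun x k hk =>
    Function.update_of_ne (by omega) _ _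
  by_cases hp : w (n - 1) = w (n - 3)
  · have e : wt n w = 8 / 11 := by unfold wt; rw [if_pos ⟨hn, hp⟩]
    have key : ∀ x ∈ L, (1 : ℚ) - (if x = w (n - 1) then 1 else 0) - (if x = w (n - 2) then 1 else 0) ≤
        wt' n (Function.update w n x) := by
      intro x _
      by_cases hx1 : x = w (n - 1)
      · rw [if_pos hx1]
        have := wt'_nonneg n (Function.update w n x)
        split_ifs <;> linarith
      · by_cases hx2 : x = w (n - 2)
        · rw [if_neg hx1, if_pos hx2]
          have := wt'_nonneg n (Function.update w n x)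
          linarith
        · rw [if_neg hx1, if_neg hx2]
          unfold wt'
          rw [if_neg]
          · unfold wt
            rw [if_neg]
            · norm_num
            · rintro ⟨_, h⟩
              rw [show n + 1 - 1 = n by omega, u1, u2 _ _ (by omega),
                show n + 1 - 3 = n - 2 by omega] at h
              exact hx2 h
          · rintro (h | h)
            · rw [sq1_iff _ (by omega), u1, u2 _ _ (by omega)] at h
              exact hx1 h
            · rw [sq2_iff _ hn, u1, u2 _ _ (by omega)] at h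
              exact hx2 h.1
    have h2 := sum_le_sum key
    rw [sum_sub_distrib, sum_sub_distrib] at h2
    simp only [sum_ite_eq', sum_const, hL, nsmul_eq_mul, mul_one] at h2
    rw [e]
    refine le_trans ?_ h2
    split_ifs <;> norm_num
  · have e : wt n w = 1 := by unfold wt; rw [if_neg (fun h => hp h.2)]
    have key : ∀ x ∈ L, (1 : ℚ) - (if x = w (n - 1) then 1 else 0) -
        (if x = w (n - 2) then 3 / 11 else 0) ≤ wt' n (Function.update w n x) := by
      intro x _
      by_cases hx1 : x = w (n - 1)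
      · rw [if_pos hx1]
        have := wt'_nonneg n (Function.update w n x)
        split_ifs <;> linarith
      · have hns : ¬ (sqAt 1 n (Function.update w n x) ∨ sqAt 2 n (Function.update w n x)) := by
          rintro (h | h)
          · rw [sq1_iff _ (by omega), u1, u2 _ _ (by omega)] at h
            exact hx1 h
          · rw [sq2_iff _ hn, u2 _ (n - 1) (by omega), u2 _ (n - 3) (by omega)] at h
            exact hp h.2
        unfold wt'
        rw [if_neg hns, if_neg hx1]
        by_cases hx2 : x = w (n - 2)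
        · rw [if_pos hx2]
          have := wt_ge (n + 1) (Function.update w n x)
          linarith
        · rw [if_neg hx2]
          unfold wt
          rw [if_neg]
          · norm_num
          · rintro ⟨_, h⟩
            rw [show n + 1 - 1 = n by omega, u1, u2 _ _ (by omega),
                show n + 1 - 3 = n - 2 by omega] at h
            exact hx2 h
    have h2 := sum_le_sum key
    rw [sum_sub_distrib, sum_sub_distrib] at h2
    simp only [sum_ite_eq', sum_const, hL, nsmul_eq_mul, mul_one] at h2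
    rw [e]
    refine le_trans ?_ h2
    split_ifs <;> norm_num

/-- cost of the forbidden factor `G` of length five -/
lemma g_cost (hloc : Local ok) (G : List ℕ) (m : ℕ) (hm : 4 ≤ m) :
    ∑ c ∈ (U ok ℒ m).filter (gBad G m), wt (m + 1) c ≤ N ok ℒ (m - 4) := by
  have key := union_bound (ok := ok) (ℒ := ℒ) hloc (range 1) m (m - 4) (by omega)
    (fun _ _ k => G.getD (k - (m - 4)) 0) (gBad G m) ?_ (wt (m + 1)) (fun _ => 1)
    (fun c _ _ => wt_le_one _ _) (fun _ _ => zero_le_one)
  · rw [N_eq]; simpa using key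
  · intro c _ hb
    refine ⟨0, by simp, fun k hk hk' => ?_⟩
    rw [← hb.2, wn_getD _ _ _ _ (by omega)]
    congr 1; omega

/-- Hypotheses: from `n1` on the condition is the plain one (with the five letter factor from `n2`
on); squares do not reach back beyond the barrier `t0`. -/
structure Plain (ok : ℕ → (ℕ → ℕ) → Prop) (ℒ : ℕ → Finset ℕ) (T s : ℕ) (F : Finset (List ℕ))
    (G : List ℕ) (t0 n1 n2 : ℕ) : Prop where
  loc : Local ok
  sound1 : ∀ n c, ok n c → ¬ sqAt 1 n c
  sound2 : ∀ n c, ok n c → ¬ sqAt 2 n c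
  plain : ∀ n, n1 ≤ n → ∀ c ∈ U ok ℒ n, (∀ t, 1 ≤ t → t < T → ¬ sqAt t n c) → ¬ winBad s F n c →
    (n2 ≤ n → ¬ gBad G n c) → ok n c
  barrier : ∀ n, n1 ≤ n → ∀ c ∈ U ok ℒ n, ∀ t, 3 ≤ t → t < T → sqAt t n c → t0 ≤ n + 1 - t

/-- The recursion. -/
theorem rec_ineq {T s : ℕ} {F : Finset (List ℕ)} {G : List ℕ} {t0 n1 n2 : ℕ} (hs : 1 ≤ s)
    (P : Plain ok ℒ T s F G t0 n1 n2) (n : ℕ) (hn : n1 ≤ n) (hn4 : 4 ≤ n) (hsn : s ≤ n + 1)
    (hL : (ℒ n).card = 4) :
    30 / 11 * S ok ℒ n ≤ S ok ℒ (n + 1) + ∑ j ∈ Ico t0 (n - 1), S ok ℒ j +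
      ((F.card : ℚ) + 2 * ((n : ℚ) + 1)) * N ok ℒ (n + 1 - s) +
      (if n2 ≤ n then N ok ℒ (n - 4) else 0) := by
  have hA : 30 / 11 * S ok ℒ n ≤ ∑ c ∈ U ok ℒ n, wt' n c := by
    rw [sum_U P.loc, S, mul_sum]
    apply sum_le_sum
    intro w hw
    rw [mem_W] at hw
    exact local_ineq (ℒ n) hL n (by omega) w
  set B3 := (U ok ℒ n).filter (fun c => ∃ t, 3 ≤ t ∧ t < T ∧ sqAt t n c) with hB3
  set Bw := (U ok ℒ n).filter (winBad s F n) with hBw
  set Bg := (U ok ℒ n).filter (gBad G n) with hBg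
  have hB : ∑ c ∈ U ok ℒ n, wt' n c ≤ S ok ℒ (n + 1) + ∑ c ∈ B3, wt (n + 1) c +
      ∑ c ∈ Bw, wt (n + 1) c + (if n2 ≤ n then ∑ c ∈ Bg, wt (n + 1) c else 0) := by
    have e1 : S ok ℒ (n + 1) = ∑ c ∈ U ok ℒ n, (if ok n c then wt (n + 1) c else 0) := by
      rw [S, W_succ, sum_filter]
    have e2 : ∑ c ∈ B3, wt (n + 1) c = ∑ c ∈ U ok ℒ n,
        (if (∃ t, 3 ≤ t ∧ t < T ∧ sqAt t n c) then wt (n + 1) c else 0) := by
      rw [hB3, sum_filter]
    have e3 : ∑ c ∈ Bw, wt (n + 1) c = ∑ c ∈ U ok ℒ n,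
        (if winBad s F n c then wt (n + 1) c else 0) := by
      rw [hBw, sum_filter]
    have e4 : (if n2 ≤ n then ∑ c ∈ Bg, wt (n + 1) c else 0) = ∑ c ∈ U ok ℒ n,
        (if n2 ≤ n ∧ gBad G n c then wt (n + 1) c else 0) := by
      by_cases h : n2 ≤ n
      · rw [if_pos h, hBg, sum_filter]
        apply sum_congr rfl
        intro c _
        simp [h]
      · simp [h]
    rw [e1, e2, e3, e4, ← sum_add_distrib, ← sum_add_distrib, ← sum_add_distrib]
    apply sum_le_sum
    intro c hc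
    have hw := wt_nonneg (n + 1) c
    have q1 : (0 : ℚ) ≤ if ok n c then wt (n + 1) c else 0 := by split_ifs <;> linarith
    have q2 : (0 : ℚ) ≤ if (∃ t, 3 ≤ t ∧ t < T ∧ sqAt t n c) then wt (n + 1) c else 0 := by
      split_ifs <;> linarith
    have q3 : (0 : ℚ) ≤ if winBad s F n c then wt (n + 1) c else 0 := by split_ifs <;> linarith
    have q4 : (0 : ℚ) ≤ if n2 ≤ n ∧ gBad G n c then wt (n + 1) c else 0 := by
      split_ifs <;> linarith
    by_cases h0 : sqAt 1 n c ∨ sqAt 2 n c
    · have : wt' n c = 0 := by unfold wt'; rw [if_pos h0]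
      rw [this]; linarith
    · have e0 : wt' n c = wt (n + 1) c := by unfold wt'; rw [if_neg h0]
      push Not at h0
      rw [e0]
      by_cases h1 : ok n c
      · rw [if_pos h1]; linarith
      · by_cases h2 : ∃ t, 3 ≤ t ∧ t < T ∧ sqAt t n c
        · rw [if_pos h2]; linarith
        · by_cases h3 : winBad s F n c
          · rw [if_pos h3]; linarith
          · by_cases h4 : n2 ≤ n ∧ gBad G n c
            · rw [if_pos h4]; linarith
            · exfalso
              apply h1
              refine P.plain n hn c hc ?_ h3 (fun hn2 hg => h4 ⟨hn2, hg⟩)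
              intro t ht1 ht2 hsq
              have : t = 1 ∨ t = 2 ∨ 3 ≤ t := by omega
              rcases this with rfl | rfl | h5
              · exact h0.1 hsq
              · exact h0.2 hsq
              · exact h2 ⟨t, h5, ht2, hsq⟩
  have hC3 : ∑ c ∈ B3, wt (n + 1) c ≤ ∑ j ∈ Ico t0 (n - 1), S ok ℒ j := by
    set τ : (ℕ → ℕ) → ℕ := fun c => if h : ∃ t, 3 ≤ t ∧ t < T ∧ sqAt t n c then n + 1 - h.choose
      else 0 with hτ
    have hτ1 : ∀ c ∈ B3, τ c ∈ Ico t0 (n - 1) := by
      intro c hc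
      rw [hB3, mem_filter] at hc
      have h := hc.2
      have h2 := h.choose_spec
      simp only [hτ, dif_pos h]
      rw [mem_Ico]
      refine ⟨P.barrier n hn c hc.1 _ h2.1 h2.2.1 h2.2.2, ?_⟩
      omega
    rw [← sum_fiberwise_of_maps_to hτ1 (wt (n + 1))]
    apply sum_le_sum
    intro j hj
    rw [mem_Ico] at hj
    have h1 : B3.filter (fun c => τ c = j) ⊆ (U ok ℒ n).filter
        (fun c => sqAt (n + 1 - j) n c ∧ 3 ≤ n + 1 - j) := by
      intro c hc
      rw [mem_filter, hB3, mem_filter] at hc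
      rw [mem_filter]
      have h := hc.1.2
      have h2 := h.choose_spec
      have h3 : τ c = n + 1 - h.choose := by simp only [hτ, dif_pos h]
      have h4 := h2.2.2.1
      have h5 : h.choose = n + 1 - j := by omega
      rw [← h5]
      exact ⟨hc.1.1, h2.2.2, h2.1⟩
    refine (sum_le_sum_of_subset_of_nonneg h1 (fun c _ _ => wt_nonneg _ _)).trans ?_
    have h6 := sq_cost_w (ok := ok) (ℒ := ℒ) P.loc (n + 1 - j) (by omega) n
      (fun c => sqAt (n + 1 - j) n c ∧ 3 ≤ n + 1 - j) (fun c _ h => h.1) (wt (n + 1))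
      (wt (n + 1 - (n + 1 - j))) ?_ (fun _ _ => wt_nonneg _ _)
    · rw [show n + 1 - (n + 1 - j) = j by omega] at h6
      have e6 : S ok ℒ j = ∑ v ∈ W ok ℒ j, wt j v := rfl
      rw [e6]
      refine le_trans (le_of_eq ?_) h6
      apply sum_congr _ (fun _ _ => rfl)
      ext c
      simp only [mem_filter]
    · rintro c hc ⟨⟨h7, h8⟩, h9⟩
      rw [show n + 1 - (n + 1 - j) = j by omega]
      apply le_of_eq
      unfold wt
      have e1 : trunc j c (j - 1) = c (n + 1 - 1) := by
        have : j - 1 < j := by omega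
        simp only [trunc, if_pos this]
        rw [show n + 1 - 1 = n by omega]
        rw [h8 n (by omega) le_rfl]
        congr 1; omega
      have e2 : trunc j c (j - 3) = c (n + 1 - 3) := by
        have : j - 3 < j := by omega
        simp only [trunc, if_pos this]
        rw [h8 (n + 1 - 3) (by omega) (by omega)]
        congr 1; omega
      rw [e1, e2]
      have : (3 ≤ n + 1) ↔ (3 ≤ j) := by omega
      simp only [this]
  have hCw : ∑ c ∈ Bw, wt (n + 1) c ≤ ((F.card : ℚ) + 2 * ((n : ℚ) + 1)) * N ok ℒ (n + 1 - s) :=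
    win_cost P.loc s hs F n hsn _ (fun c _ => wt_le_one _ _)
  have hCg : (if n2 ≤ n then ∑ c ∈ Bg, wt (n + 1) c else 0) ≤
      (if n2 ≤ n then N ok ℒ (n - 4) else 0) := by
    split_ifs
    · exact g_cost P.loc G n hn4
    · exact le_rfl
  linarith

end
end Pool.Agent.H565.Win
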