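import Pool.Agent.H565.Win.Wrap
import Pool.Agent.H378R3.ND.LegD
import Pool.Agent.H409R3.Leg.Prop

/-! The final provider: a family of words for one end of an edge. -/

set_option autoImplicit false

namespace Pool.Agent.H565.Win
open Finset Pool.Agent.H378R3.ND
open scoped Classical
open Pool.Agent.H401R3.SD.Wd (EndFacts)
open Pool.Agent.H409R3.Sub (win Leg)
open Pool.Agent.H409R3 (Ph1.ok Ph1.ls)

noncomputable section

/-- the final condition far from the end of the edge -/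
def VG (s : ℕ) (F : Finset (List ℕ)) (G : List ℕ) (p : ℕ) (c : ℕ → ℕ) : Prop :=
  val0 (12 * s) s F p c ∧ (16 * s ≤ p → ∀ a, a + 5 = p + 1 → win c 5 a ≠ G)

lemma win_congr {c c' : ℕ → ℕ} {s a : ℕ} (h : ∀ i, i < a + s → c i = c' i) :
    win c s a = win c' s a := by
  unfold win
  apply List.map_congr_left
  intro r hr
  have := List.mem_range.1 hr
  exact h _ (by omega)

lemma VG_local (s : ℕ) (F : Finset (List ℕ)) (G : List ℕ) : Local (VG s F G) := by
  rintro p c c' h ⟨⟨h1, h2, h3⟩, h4⟩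
  refine ⟨⟨fun t a ht hT ha => ?_, fun a ha => ?_, fun j a ha hj => ?_⟩, fun h16 a ha => ?_⟩
  · obtain ⟨i, hi, hne⟩ := h1 t a ht hT ha
    exact ⟨i, hi, by rwa [← h _ (by omega), ← h _ (by omega)]⟩
  · rw [← win_congr (c := c) (fun i hi => h i (by omega))]
    exact h2 a ha
  · rw [← win_congr (c := c) (c' := c') (a := j) (fun i hi => h i (by omega)),
      ← win_congr (c := c) (c' := c') (a := a) (fun i hi => h i (by omega))]
    exact h3 j a ha hj
  · rw [← win_congr (c := c) (fun i hi => h i (by omega))]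
    exact h4 h16 a ha

lemma val0_not_sq {T s : ℕ} {F : Finset (List ℕ)} {p : ℕ} {c : ℕ → ℕ} (h : val0 T s F p c) {t : ℕ}
    (h1 : 1 ≤ t) (h2 : t < T) : ¬ sqAt t p c :=
  (not_sq_iff t p c).2 (fun a ha => h.1 t a h1 h2 ha)

lemma val0_not_wb {T s : ℕ} {F : Finset (List ℕ)} {p : ℕ} {c : ℕ → ℕ} (h : val0 T s F p c) :
    ¬ winBad s F p c := by
  rintro ⟨h0, h1 | ⟨i, hi, h1 | h1⟩⟩
  · exact h.2.1 (p + 1 - s) (by omega) h1
  · exact (h.2.2 i (p + 1 - s) (by omega) hi).1 h1.symm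
  · apply (h.2.2 i (p + 1 - s) (by omega) hi).2
    have : wn s c (p + 1 - s) = (wn s c i).reverse := h1
    rw [wn_eq_win, wn_eq_win] at this
    rw [this, List.reverse_reverse]

lemma sqf_not {p : ℕ} {c : ℕ → ℕ} (h : sqf p c) {t : ℕ} (ht : 1 ≤ t) : ¬ sqAt t p c := by
  rintro ⟨h1, h2⟩
  refine h t ht ⟨h1, fun i hi => ?_⟩
  have := h2 (p + 1 - t + i) (by omega) (by omega)
  rw [this]
  congr 1; omega

theorem phase1' {α s : ℕ} {L : ℕ → Finset ℕ} {F : Finset (List ℕ)} (hL : ∀ k, (L k).card = 4)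
    (hs : 7 ≤ s) :
    ∃ q : ℕ → ℕ,
      P1 (o1 α L s F) (l1 α L q) α s F ∧
      trunc 6 q ∈ W (o1 α L s F) (l1 α L q) 6 ∧
      q 5 ≠ q 3 ∧ q 0 ≠ q 2 ∧ q 1 ≠ q 2 ∧ ∀ i < 6, q i ∈ L i := by
  obtain ⟨q, hq1, hq2, hq3, hq4, hq5⟩ := Pool.Agent.H409R3.Ph1.exists_prefix α L hL
  have hloc : Local (wn1 s F) := wn1_local (by omega) F
  have hwin : ∀ m < 6, wn1 s F m q := by
    rintro m hm ⟨_, h1, _⟩
    omega
  have h6 := Pool.Agent.H409R3.Ph1.prefix_mem (α := α) (L := L) hloc hwin hq3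
  refine ⟨q, ?_, h6, hq4, hq2.2.1, hq5, fun i hi => mem_of_mem_erase (hq1 i hi)⟩
  refine ⟨Pool.Agent.H409R3.Ph1.local_ok hloc, ?_, ?_, ?_, ?_, ?_⟩
  · rintro p c ⟨h1, h2, _⟩
    refine ⟨fun t ht hS => h1 t ⟨ht, hS.1, hS.2⟩, h2⟩
  · intro k
    unfold l1 Pool.Agent.H409R3.Ph1.ls
    split_ifs with hk
    · rw [mem_singleton]
      intro he
      have := hq1 k hk
      rw [← he] at this
      exact absurd this (notMem_erase _ _)
    · exact notMem_erase _ _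
  · intro k hk
    exact Pool.Agent.H409R3.Ph1.N_le_one hk
  · have h2 : 1 ≤ (W (o1 α L s F) (l1 α L q) 6).card := card_pos.2 ⟨_, h6⟩
    unfold N
    exact_mod_cast h2
  · intro m hm c hc
    have hv : ∀ k, k < 6 → c k = q k := fun k hk => Pool.Agent.H409R3.Ph1.val_qW hc (by omega) hk
    rw [hv 0 (by norm_num), hv 1 (by norm_num), hv 2 (by norm_num), hv 3 (by norm_num),
      hv 4 (by norm_num)]
    exact ⟨hq2.2.1, hq2.2.2.1, hq2.2.2.2⟩

/-- numbers for the legs -/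
theorem choose_leg (K : ℕ) : ∃ s0 : ℕ, 8 ≤ s0 ∧ ∀ s : ℕ, s0 ≤ s → ∀ F : Finset (List ℕ),
    F.card ≤ K * s → ((F.card : ℚ) + 30 * s + 2) * (25 / 43) ^ (s - 8) ≤ 1 / 100000000 := by
  obtain ⟨s1, hs1⟩ := choose_s (43 / 25) (by norm_num) (1 / 100000000 * (25 / 43) ^ 7) (by norm_num)
    (K + 32)
  refine ⟨max 8 s1, le_max_left _ _, fun s hs F hF => ?_⟩
  have h8 : 8 ≤ s := (le_max_left _ _).trans hs
  have h1 := hs1 s ((le_max_right _ _).trans hs)
  have e1 : (1 / (43 / 25) : ℚ) = 25 / 43 := by norm_num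
  rw [e1, show s - 1 = (s - 8) + 7 by omega, pow_add] at h1
  have e2 : (F.card : ℚ) ≤ K * s := by exact_mod_cast hF
  have e3 : (2 : ℚ) ≤ 2 * s := by
    have : (8 : ℚ) ≤ s := by exact_mod_cast h8
    linarith
  have e4 : (F.card : ℚ) + 30 * s + 2 ≤ ((K + 32 : ℕ) : ℚ) * s := by push_cast; linarith
  have e5 : (0 : ℚ) ≤ (25 / 43) ^ (s - 8) := by positivity
  have e6 := mul_le_mul_of_nonneg_right e4 e5
  have e7 : (0 : ℚ) < (25 / 43) ^ 7 := by positivity
  have e8 : (((K + 32 : ℕ) : ℚ) * s * (25 / 43) ^ (s - 8)) * (25 / 43) ^ 7 ≤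
      1 / 100000000 * (25 / 43) ^ 7 := by linarith
  have e9 := le_of_mul_le_mul_right e8 e7
  linarith

/-- The final provider. -/
theorem provider (K : ℕ) : ∃ s0 : ℕ, 1300 ≤ s0 ∧ ∀ s : ℕ, s0 ≤ s →
    ∀ (L : ℕ → Finset ℕ), (∀ k, (L k).card = 4) → ∀ (α : ℕ) (F : Finset (List ℕ)),
    F.card ≤ K * s → ∀ G : List ℕ, ∃ ok : ℕ → (ℕ → ℕ) → Prop,
      (∀ p c, ok p c → val0 (12 * s) s F p c) ∧
      (∀ p c, ok p c → 16 * s ≤ p → ∀ a, a + 5 = p + 1 → win c 5 a ≠ G) ∧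
      (∀ m, 24 * s ≤ m → ∀ c ∈ W ok L m, Leg α (fun i => c (i - 1)) (12 * s)) ∧
      (∀ m, 39 * s ≤ m → m ≤ 40 * s → EndFacts ok L (477 / 200) (1 / 10000) m (12 * s)) ∧
      (G = [] → ∀ m, 39 * s ≤ m → m ≤ 40 * s →
        EndFacts ok L (61 / 25) (1 / 10000) m (12 * s)) := by
  obtain ⟨s1, hs1, hnum⟩ := choose_num K
  obtain ⟨s2, hs2, hleg⟩ := choose_leg K
  refine ⟨max 1300 (max s1 s2), le_max_left _ _, fun s hs L hL α F hF G => ?_⟩
  have h1300 : 1300 ≤ s := (le_max_left _ _).trans hs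
  have hss1 : s1 ≤ s := (le_max_left _ _).trans ((le_max_right _ _).trans hs)
  have hss2 : s2 ≤ s := (le_max_right _ _).trans ((le_max_right _ _).trans hs)
  obtain ⟨hw0, hε⟩ := hnum s hss1
  have hw := hw0 F hF
  have hsm := hleg s hss2 F hF
  obtain ⟨q, hP, hq, q53, q02, q12, hqL⟩ := phase1' (α := α) (F := F) hL (show 7 ≤ s by omega)
  -- general conclusion from the properties of the family
  have fin : ∀ (ok : ℕ → (ℕ → ℕ) → Prop) (n1 : ℕ), s ≤ n1 → n1 ≤ 15 * s → Local ok →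
      0 < S ok L n1 → (∀ j ≤ n1, S ok L j ≤ (10 / 17) ^ (n1 - j) * S ok L n1) →
      (∀ p c, p < n1 → ok p c → sqf p c ∧ ¬ wb s F p c) →
      (∀ p c, n1 ≤ p → (ok p c ↔ VG s F G p c)) →
      (∀ m, 24 * s ≤ m → ∀ c ∈ W ok L m, Leg α (fun i => c (i - 1)) (12 * s)) →
      ∃ ok : ℕ → (ℕ → ℕ) → Prop,
      (∀ p c, ok p c → val0 (12 * s) s F p c) ∧
      (∀ p c, ok p c → 16 * s ≤ p → ∀ a, a + 5 = p + 1 → win c 5 a ≠ G) ∧
      (∀ m, 24 * s ≤ m → ∀ c ∈ W ok L m, Leg α (fun i => c (i - 1)) (12 * s)) ∧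
      (∀ m, 39 * s ≤ m → m ≤ 40 * s → EndFacts ok L (477 / 200) (1 / 10000) m (12 * s)) ∧
      (G = [] → ∀ m, 39 * s ≤ m → m ≤ 40 * s →
        EndFacts ok L (61 / 25) (1 / 10000) m (12 * s)) := by
    intro ok n1 h1 h15 hloc hpos hrec hlow hhigh hLeg
    have hval : ∀ p c, ok p c → val0 (12 * s) s F p c := by
      intro p c hc
      rcases Nat.lt_or_ge p n1 with hp | hp
      · obtain ⟨a1, a2⟩ := hlow p c hp hc
        refine val0_of (fun t ht _ => sqf_not a1 ht) (fun hb => a2 ⟨by omega, hb⟩)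
      · exact ((hhigh p c hp).1 hc).1
    have H : Leg1 ok L s F n1 := ⟨hloc, h1, h15, hpos, hrec,
      fun n c hc => val0_not_sq (hval n c hc) le_rfl (by omega),
      fun n c hc => val0_not_sq (hval n c hc) (by norm_num) (by omega), fun k _ => hL k⟩
    refine ⟨ok, hval, ?_, hLeg, ?_, ?_⟩
    · intro p c hc h16
      exact ((hhigh p c (by omega)).1 hc).2 h16
    · exact end2 (G := G) (by omega) H (fun n hn c hv hg => (hhigh n c hn).2 ⟨hv, hg⟩) hw hε
    · intro hG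
      refine end1 (by omega) H (fun n hn c hv => (hhigh n c hn).2 ⟨hv, fun _ a _ hwG => ?_⟩) hw hε
      rw [hG] at hwG
      have := congrArg List.length hwG
      simp [win] at this
  rcases leg_growth (V := VG s F G) hP h1300 hL hq q53 q02 q12 hqL hsm (VG_local s F G) with
    ⟨τ, n1, t7, t13, n13, n15, hloc, hpos, hrec⟩ | ⟨n1, n12, n15, hloc, hpos, hrec⟩
  · refine fin _ n1 (by omega) n15 hloc hpos hrec ?_ ?_ ?_
    · intro p c hp hc
      unfold okF at hc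
      rw [if_pos hp] at hc
      exact ⟨all_sqf hP hc.2, all_wb hP hc.2⟩
    · intro p c hp
      unfold okF
      rw [if_neg (by omega)]
    · intro m hm c hc
      exact Pool.Agent.H409R3.Lg.leg_case1 hP (by omega) t7 t13 n13 n15
        (fun p c hV => val0_not_wb hV.1) hm hc
  · refine fin _ n1 (by omega) n15 hloc hpos hrec ?_ ?_ ?_
    · intro p c hp hc
      unfold okG at hc
      rw [if_pos hp] at hc
      exact hP.good p c hc.2
    · intro p c hp
      unfold okG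
      rw [if_neg (by omega)]
    · intro m hm c hc
      exact Pool.Agent.H409R3.Lg.leg_case2 hP (by omega) (by omega) hc

end
end Pool.Agent.H565.Win
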