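import Pool.Agent.H565.Win.Ramp

/-! Numbers: from the growth rate to the facts needed for the closing. -/

set_option autoImplicit false

namespace Pool.Agent.H565.Win
open Finset

lemma sum_tq (q : ℚ) (hq0 : 0 < q) (hq1 : q < 1) (m : ℕ) (hm : 1 ≤ m) :
    ∑ t ∈ Ico 2 (m + 1), (t : ℚ) * q ^ (t - 1) ≤ 1 / (1 - q) ^ 2 - 1 := by
  have key : (1 - q) ^ 2 * ∑ t ∈ Ico 2 (m + 1), (t : ℚ) * q ^ (t - 1) =
      1 - (1 - q) ^ 2 - (((m : ℚ) + 1) * q ^ m - m * q ^ (m + 1)) := by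
    induction m, hm using Nat.le_induction with
    | base => simp; ring
    | succ m hm ih =>
      rw [sum_Ico_succ_top (by omega), mul_add, ih, Nat.add_sub_cancel]
      push_cast
      ring
  have h1 : 0 ≤ ((m : ℚ) + 1) * q ^ m - m * q ^ (m + 1) := by
    have h2 : q ^ (m + 1) ≤ q ^ m := pow_le_pow_of_le_one hq0.le hq1.le (by omega)
    have h3 : (0 : ℚ) ≤ q ^ m := by positivity
    have h4 : (0 : ℚ) ≤ m := by positivity
    nlinarith
  have h2 : 0 < (1 - q) ^ 2 := by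
    have : 0 < 1 - q := by linarith
    positivity
  rw [le_sub_iff_add_le, le_div_iff₀ h2]
  nlinarith

theorem endNum {S N : ℕ → ℚ} {a m D : ℕ} {β ε : ℚ} (hβ : 1 < β) (hS : ∀ n, 0 ≤ S n)
    (hN2 : ∀ n, 4 ≤ n → N n ≤ S n + 3 / 11 * S (n - 1)) (h4 : 4 ≤ a) (ham : a + 1 + D ≤ m)
    (hr : ∀ k, a ≤ k → k < m → β * S k ≤ S (k + 1))
    (hP : ∀ j ≤ m, N j ≤ 11 / 8 * (2 / 3) ^ (m - j) * S m)
    (hε : ((m : ℚ) + 1) ^ 2 * (11 / 8 * (2 / 3) ^ (m - a)) ≤ ε) :
    (∀ d ≤ D, β ^ d * N (m - d) ≤ (1 + 3 / (11 * β)) * S m) ∧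
    ∑ t ∈ Ico 1 (m + 1), (t : ℚ) * N (m + 1 - t) ≤
      N m + ((1 + 3 / (11 * β)) * (β ^ 2 / (β - 1) ^ 2 - 1) + ε) * S m := by
  have hβ0 : 0 < β := by linarith
  have g1 : ∀ d, d ≤ m - a → β ^ d * S (m - d) ≤ S m := by
    intro d
    induction d with
    | zero => intro _; simp
    | succ d ih =>
      intro hd
      have e1 := ih (by omega)
      have e2 := hr (m - (d + 1)) (by omega) (by omega)
      rw [show m - (d + 1) + 1 = m - d by omega] at e2
      calc β ^ (d + 1) * S (m - (d + 1)) = β ^ d * (β * S (m - (d + 1))) := by ring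
        _ ≤ β ^ d * S (m - d) := mul_le_mul_of_nonneg_left e2 (by positivity)
        _ ≤ S m := e1
  have g2 : ∀ d, d + 1 ≤ m - a → β ^ d * N (m - d) ≤ (1 + 3 / (11 * β)) * S m := by
    intro d hd
    have e1 := g1 d (by omega)
    have e2 := g1 (d + 1) hd
    have e3 := hN2 (m - d) (by omega)
    rw [show m - d - 1 = m - (d + 1) by omega] at e3
    have e4 : β ^ d * S (m - (d + 1)) ≤ S m / β := by
      rw [le_div_iff₀ hβ0]
      calc β ^ d * S (m - (d + 1)) * β = β ^ (d + 1) * S (m - (d + 1)) := by ring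
        _ ≤ S m := e2
    calc β ^ d * N (m - d) ≤ β ^ d * (S (m - d) + 3 / 11 * S (m - (d + 1))) :=
          mul_le_mul_of_nonneg_left e3 (by positivity)
      _ = β ^ d * S (m - d) + 3 / 11 * (β ^ d * S (m - (d + 1))) := by ring
      _ ≤ S m + 3 / 11 * (S m / β) := by linarith
      _ = (1 + 3 / (11 * β)) * S m := by
          field_simp
  refine ⟨fun d hd => g2 d (by omega), ?_⟩
  set A : ℚ := 1 + 3 / (11 * β) with hA
  have hA0 : 0 < A := by positivity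
  set q : ℚ := 1 / β with hq
  have hq0 : 0 < q := by positivity
  have hq1 : q < 1 := by rw [hq, div_lt_one hβ0]; exact hβ
  have hSm := hS m
  rw [Finset.sum_eq_sum_Ico_succ_bot (by omega : 1 < m + 1)]
  have hterm : ∀ t ∈ Ico (1 + 1) (m + 1), (t : ℚ) * N (m + 1 - t) ≤
      ((t : ℚ) * q ^ (t - 1)) * (A * S m) + ((m : ℚ) + 1) * (11 / 8 * (2 / 3) ^ (m - a)) * S m := by
    intro t ht
    rw [mem_Ico] at ht
    have ht0 : (0 : ℚ) ≤ t := by positivity
    have htm : (t : ℚ) ≤ (m : ℚ) + 1 := by exact_mod_cast (by omega : t ≤ m + 1)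
    have z1 : (0 : ℚ) ≤ (11 / 8 * (2 / 3) ^ (m - a)) * S m := by positivity
    rcases Nat.lt_or_ge (t - 1) (m - a) with h | h
    · have e1 := g2 (t - 1) (by omega)
      rw [show m - (t - 1) = m + 1 - t by omega] at e1
      have e2 : N (m + 1 - t) ≤ q ^ (t - 1) * (A * S m) := by
        have hb : 0 < β ^ (t - 1) := by positivity
        calc N (m + 1 - t) = q ^ (t - 1) * (β ^ (t - 1) * N (m + 1 - t)) := by
              rw [← mul_assoc, ← mul_pow, hq, one_div, inv_mul_cancel₀ hβ0.ne', one_pow, one_mul]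
          _ ≤ q ^ (t - 1) * (A * S m) := mul_le_mul_of_nonneg_left e1 (by positivity)
      have e3 := mul_le_mul_of_nonneg_left e2 ht0
      have e4 : 0 ≤ ((m : ℚ) + 1) * (11 / 8 * (2 / 3) ^ (m - a)) * S m := by positivity
      linarith
    · have e1 := hP (m + 1 - t) (by omega)
      rw [show m - (m + 1 - t) = t - 1 by omega] at e1
      have e2 : ((2 : ℚ) / 3) ^ (t - 1) ≤ (2 / 3) ^ (m - a) :=
        pow_le_pow_of_le_one (by norm_num) (by norm_num) h
      have e3 : N (m + 1 - t) ≤ 11 / 8 * (2 / 3) ^ (m - a) * S m := by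
        refine e1.trans ?_
        apply mul_le_mul_of_nonneg_right _ hSm
        linarith
      have e4 : (t : ℚ) * N (m + 1 - t) ≤ ((m : ℚ) + 1) * (11 / 8 * (2 / 3) ^ (m - a) * S m) := by
        calc (t : ℚ) * N (m + 1 - t) ≤ t * (11 / 8 * (2 / 3) ^ (m - a) * S m) :=
              mul_le_mul_of_nonneg_left e3 ht0
          _ ≤ _ := mul_le_mul_of_nonneg_right htm z1
      have e5 : 0 ≤ ((t : ℚ) * q ^ (t - 1)) * (A * S m) := by positivity
      linarith
  have hsum := sum_le_sum hterm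
  rw [sum_add_distrib, ← sum_mul, sum_const, Nat.card_Ico, nsmul_eq_mul] at hsum
  have hq2 := sum_tq q hq0 hq1 m (by omega)
  have hq3 : 1 / (1 - q) ^ 2 = β ^ 2 / (β - 1) ^ 2 := by
    have : β - 1 ≠ 0 := by linarith
    have h2 : 1 - q = (β - 1) / β := by rw [hq]; field_simp
    rw [h2, div_pow]; field_simp
  rw [hq3] at hq2
  have h6 : (∑ t ∈ Ico (1 + 1) (m + 1), (t : ℚ) * q ^ (t - 1)) * (A * S m) ≤
      (β ^ 2 / (β - 1) ^ 2 - 1) * (A * S m) :=
    mul_le_mul_of_nonneg_right hq2 (by positivity)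
  have h7 : ((m + 1 - (1 + 1) : ℕ) : ℚ) * (((m : ℚ) + 1) * (11 / 8 * (2 / 3) ^ (m - a)) * S m) ≤
      ε * S m := by
    have e1 : ((m + 1 - (1 + 1) : ℕ) : ℚ) ≤ (m : ℚ) + 1 := by
      exact_mod_cast (by omega : m + 1 - (1 + 1) ≤ m + 1)
    have e2 : (0:ℚ) ≤ ((m : ℚ) + 1) * (11 / 8 * (2 / 3) ^ (m - a)) * S m := by positivity
    calc _ ≤ ((m : ℚ) + 1) * (((m : ℚ) + 1) * (11 / 8 * (2 / 3) ^ (m - a)) * S m) :=
          mul_le_mul_of_nonneg_right e1 e2
      _ = (((m : ℚ) + 1) ^ 2 * (11 / 8 * (2 / 3) ^ (m - a))) * S m := by ring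
      _ ≤ ε * S m := mul_le_mul_of_nonneg_right hε hSm
  have h8 : ((1 : ℕ) : ℚ) * N (m + 1 - 1) = N m := by simp
  rw [h8]
  linarith

end Pool.Agent.H565.Win
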