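import Pool.Agent.H565.Win.Rec

/-! Numbers: the ramp-up of the growth rate from the record time `n1` to `2.44`. -/

set_option autoImplicit false

namespace Pool.Agent.H565.Win
open Finset

/-- numerical hypotheses -/
structure Num (S N w : ℕ → ℚ) (n1 n2 M s : ℕ) : Prop where
  hS : ∀ n, 0 ≤ S n
  hNS : ∀ n, N n ≤ 11 / 8 * S n
  hN2 : ∀ n, 4 ≤ n → N n ≤ S n + 3 / 11 * S (n - 1)
  hs : 1 ≤ s
  hsn : s ≤ n1 + 1
  h5 : 5 ≤ n1
  h0 : 0 < S n1
  rec0 : ∀ j ≤ n1, S j ≤ (10 / 17) ^ (n1 - j) * S n1
  rec1 : ∀ n, n1 ≤ n → n < M → 30 / 11 * S n ≤ S (n + 1) + ∑ j ∈ range (n - 1), S j +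
    w n * N (n + 1 - s) + (if n2 ≤ n then N (n - 4) else 0)
  hw : ∀ n, n1 ≤ n → n < M → 0 ≤ w n ∧ w n * (11 / 8 * (2 / 3) ^ (s - 1)) ≤ 1 / 20000

/-- state of the recursion -/
def St (S N : ℕ → ℚ) (X Y : ℚ) (n : ℕ) : Prop :=
  0 < S n ∧ ∑ j ∈ range (n - 1), S j ≤ X * S n ∧ S (n - 1) ≤ Y * S n ∧
    ∀ j ≤ n, N j ≤ 11 / 8 * (2 / 3) ^ (n - j) * S n

variable {S N w : ℕ → ℚ} {n1 n2 M s : ℕ}

lemma Num.stepG (H : Num S N w n1 n2 M s) (n : ℕ) (X Y R X' Y' g : ℚ) (h1 : n1 ≤ n) (h2 : n < M)
    (hg : (if n2 ≤ n then N (n - 4) else 0) ≤ g * S n) (h : St S N X Y n)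
    (hR : R + X + 1 / 20000 + g ≤ 30 / 11) (hR2 : 3 / 2 ≤ R) (hX : X + Y ≤ X' * R)
    (hY : 1 ≤ Y' * R) : St S N X' Y' (n + 1) ∧ R * S n ≤ S (n + 1) := by
  obtain ⟨a1, a2, a3, a4⟩ := h
  have h5 := H.h5
  have hs := H.hs
  have hsn := H.hsn
  have hrec := H.rec1 n h1 h2
  obtain ⟨hw0, hw1⟩ := H.hw n h1 h2
  have b1 : w n * N (n + 1 - s) ≤ 1 / 20000 * S n := by
    have c1 := a4 (n + 1 - s) (by omega)
    rw [show n - (n + 1 - s) = s - 1 by omega] at c1
    calc w n * N (n + 1 - s) ≤ w n * (11 / 8 * (2 / 3) ^ (s - 1) * S n) :=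
          mul_le_mul_of_nonneg_left c1 hw0
      _ = (w n * (11 / 8 * (2 / 3) ^ (s - 1))) * S n := by ring
      _ ≤ 1 / 20000 * S n := mul_le_mul_of_nonneg_right hw1 a1.le
  have b2 : R * S n ≤ S (n + 1) := by
    have : (R + X + 1 / 20000 + g) * S n ≤ 30 / 11 * S n := mul_le_mul_of_nonneg_right hR a1.le
    nlinarith
  have hpos : 0 < S (n + 1) := lt_of_lt_of_le (by positivity) b2
  refine ⟨⟨hpos, ?_, ?_, ?_⟩, b2⟩
  · rw [show n + 1 - 1 = (n - 1) + 1 by omega, sum_range_succ]
    have hX'0 : (0 : ℚ) ≤ X' := by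
      have hYY : (0:ℚ) ≤ Y := by
        by_contra hc
        push Not at hc
        have := H.hS (n - 1)
        nlinarith
      have hXX : (0:ℚ) ≤ X := by
        by_contra hc
        push Not at hc
        have : 0 ≤ ∑ j ∈ range (n - 1), S j := sum_nonneg (fun j _ => H.hS j)
        nlinarith
      by_contra hc
      push Not at hc
      nlinarith
    calc ∑ j ∈ range (n - 1), S j + S (n - 1) ≤ X * S n + Y * S n := add_le_add a2 a3
      _ = (X + Y) * S n := by ring
      _ ≤ (X' * R) * S n := mul_le_mul_of_nonneg_right hX a1.le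
      _ = X' * (R * S n) := by ring
      _ ≤ X' * S (n + 1) := mul_le_mul_of_nonneg_left b2 hX'0
  · have hY'0 : (0 : ℚ) ≤ Y' := by
      by_contra hc
      push Not at hc
      nlinarith
    rw [Nat.add_sub_cancel]
    calc S n = 1 * S n := (one_mul _).symm
      _ ≤ (Y' * R) * S n := mul_le_mul_of_nonneg_right hY a1.le
      _ = Y' * (R * S n) := by ring
      _ ≤ Y' * S (n + 1) := mul_le_mul_of_nonneg_left b2 hY'0
  · intro j hj
    rcases Nat.lt_or_ge n j with hj' | hj'
    · have : j = n + 1 := by omega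
      subst this
      rw [Nat.sub_self, pow_zero, mul_one]
      exact H.hNS _
    · have c1 := a4 j hj'
      have c2 : S n ≤ 2 / 3 * S (n + 1) := by nlinarith
      rw [show n + 1 - j = (n - j) + 1 by omega, pow_succ]
      calc N j ≤ 11 / 8 * (2 / 3) ^ (n - j) * S n := c1
        _ ≤ 11 / 8 * (2 / 3) ^ (n - j) * (2 / 3 * S (n + 1)) :=
            mul_le_mul_of_nonneg_left c2 (by positivity)
        _ = _ := by ring

lemma Num.step (H : Num S N w n1 n2 M s) (n : ℕ) (X Y R X' Y' : ℚ) (h1 : n1 ≤ n) (h2 : n < M)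
    (hg : n < n2) (h : St S N X Y n)
    (hR : R + X + 1 / 20000 ≤ 30 / 11) (hR2 : 3 / 2 ≤ R) (hX : X + Y ≤ X' * R)
    (hY : 1 ≤ Y' * R) : St S N X' Y' (n + 1) ∧ R * S n ≤ S (n + 1) :=
  H.stepG n X Y R X' Y' 0 h1 h2 (by rw [if_neg (by omega)]; simp) h (by linarith) hR2 hX hY

lemma St.mono {X Y X' Y' : ℚ} {n : ℕ} (h : St S N X Y n) (hX : X ≤ X') (hY : Y ≤ Y') :
    St S N X' Y' n := by
  obtain ⟨a1, a2, a3, a4⟩ := h
  exact ⟨a1, a2.trans (mul_le_mul_of_nonneg_right hX a1.le),
    a3.trans (mul_le_mul_of_nonneg_right hY a1.le), a4⟩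

lemma Num.start (H : Num S N w n1 n2 M s) : St S N (42017 / 50000) (7353 / 12500) n1 := by
  refine ⟨H.h0, ?_, ?_, ?_⟩
  · have h5 := H.h5
    have h0 := H.h0
    have key : ∀ k : ℕ, k + 1 ≤ n1 → ∑ j ∈ range k, S j ≤
        17 / 7 * (10 / 17) ^ (n1 - k + 1) * S n1 := by
      intro k
      induction k with
      | zero => intro _; rw [range_zero, sum_empty]; positivity
      | succ k ih =>
        intro hk
        rw [sum_range_succ]
        have e1 := ih (by omega)
        have e2 := H.rec0 k (by omega)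
        rw [show n1 - k + 1 = (n1 - (k + 1) + 1) + 1 by omega, pow_succ] at e1
        rw [show n1 - k = (n1 - (k + 1) + 1) by omega] at e2
        have e3 : (0:ℚ) < (10 / 17) ^ (n1 - (k + 1) + 1) * S n1 := by positivity
        nlinarith
    have := key (n1 - 1) (by omega)
    rw [show n1 - (n1 - 1) + 1 = 2 by omega] at this
    nlinarith
  · have h5 := H.h5
    have h0 := H.h0
    have := H.rec0 (n1 - 1) (by omega)
    rw [show n1 - (n1 - 1) = 1 by omega, pow_one] at this
    nlinarith
  · intro j hj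
    have h0 := H.h0
    have e1 := H.rec0 j hj
    have e2 := H.hNS j
    have e3 : ((10:ℚ) / 17) ^ (n1 - j) ≤ (2 / 3) ^ (n1 - j) := by
      apply pow_le_pow_left₀ <;> norm_num
    have e4 := mul_le_mul_of_nonneg_right e3 h0.le
    nlinarith

/-- after `15` steps the rate is `2.44` -/
theorem Num.ramped (H : Num S N w n1 n2 M s) (h1 : n1 + 15 ≤ n2) (h2 : n1 + 15 ≤ M) :
    St S N (359 / 1250) (25 / 61) (n1 + 15) := by
  have s0 : St S N (42017 / 50000) (7353 / 12500) (n1 + 0) := H.start
  have s1 : St S N (2366 / 3125) (26499 / 50000) (n1 + 1) := (H.step (n1 + 0) (42017 / 50000) (7353 / 12500) (11793 / 6250) (2366 / 3125) (26499 / 50000) (by omega) (by omega) (by omega) s0 (by norm_num) (by norm_num) (by norm_num) (by norm_num)).1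
  have s2 : St S N (16333 / 25000) (50759 / 100000) (n1 + 2) := (H.step (n1 + 1) (2366 / 3125) (26499 / 50000) (19701 / 10000) (16333 / 25000) (50759 / 100000) (by omega) (by omega) (by omega) s1 (by norm_num) (by norm_num) (by norm_num) (by norm_num)).1
  have s3 : St S N (27989 / 50000) (48219 / 100000) (n1 + 3) := (H.step (n1 + 2) (16333 / 25000) (50759 / 100000) (20739 / 10000) (27989 / 50000) (48219 / 100000) (by omega) (by omega) (by omega) s2 (by norm_num) (by norm_num) (by norm_num) (by norm_num)).1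
  have s4 : St S N (24037 / 50000) (23069 / 50000) (n1 + 4) := (H.step (n1 + 3) (27989 / 50000) (48219 / 100000) (27093 / 12500) (24037 / 50000) (23069 / 50000) (by omega) (by omega) (by omega) s3 (by norm_num) (by norm_num) (by norm_num) (by norm_num)).1
  have s5 : St S N (20969 / 50000) (8903 / 20000) (n1 + 5) := (H.step (n1 + 4) (24037 / 50000) (23069 / 50000) (28081 / 12500) (20969 / 50000) (8903 / 20000) (by omega) (by omega) (by omega) s4 (by norm_num) (by norm_num) (by norm_num) (by norm_num)).1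
  have s6 : St S N (37461 / 100000) (43331 / 100000) (n1 + 6) := (H.step (n1 + 5) (20969 / 50000) (8903 / 20000) (7212 / 3125) (37461 / 100000) (43331 / 100000) (by omega) (by omega) (by omega) s5 (by norm_num) (by norm_num) (by norm_num) (by norm_num)).1
  have s7 : St S N (17171 / 50000) (21253 / 50000) (n1 + 7) := (H.step (n1 + 6) (37461 / 100000) (43331 / 100000) (235261 / 100000) (17171 / 50000) (21253 / 50000) (by omega) (by omega) (by omega) s6 (by norm_num) (by norm_num) (by norm_num) (by norm_num)).1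
  have s8 : St S N (16119 / 50000) (839 / 2000) (n1 + 8) := (H.step (n1 + 7) (17171 / 50000) (21253 / 50000) (11919 / 5000) (16119 / 50000) (839 / 2000) (by omega) (by omega) (by omega) s7 (by norm_num) (by norm_num) (by norm_num) (by norm_num)).1
  have s9 : St S N (617 / 2000) (41583 / 100000) (n1 + 9) := (H.step (n1 + 8) (16119 / 50000) (839 / 2000) (60121 / 25000) (617 / 2000) (41583 / 100000) (by omega) (by omega) (by omega) s8 (by norm_num) (by norm_num) (by norm_num) (by norm_num)).1
  have s10 : St S N (29947 / 100000) (8269 / 20000) (n1 + 10) := (H.step (n1 + 9) (617 / 2000) (41583 / 100000) (15117 / 6250) (29947 / 100000) (8269 / 20000) (by omega) (by omega) (by omega) s9 (by norm_num) (by norm_num) (by norm_num) (by norm_num)).1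
  have s11 : St S N (14683 / 50000) (41191 / 100000) (n1 + 11) := (H.step (n1 + 10) (29947 / 100000) (8269 / 20000) (9711 / 4000) (14683 / 50000) (41191 / 100000) (by omega) (by omega) (by omega) s10 (by norm_num) (by norm_num) (by norm_num) (by norm_num)).1
  have s12 : St S N (14497 / 50000) (41093 / 100000) (n1 + 12) := (H.step (n1 + 11) (14683 / 50000) (41191 / 100000) (60839 / 25000) (14497 / 50000) (41093 / 100000) (by omega) (by omega) (by omega) s11 (by norm_num) (by norm_num) (by norm_num) (by norm_num)).1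
  have s13 : St S N (28757 / 100000) (4103 / 10000) (n1 + 13) := (H.step (n1 + 12) (14497 / 50000) (41093 / 100000) (15233 / 6250) (28757 / 100000) (4103 / 10000) (by omega) (by omega) (by omega) s12 (by norm_num) (by norm_num) (by norm_num) (by norm_num)).1
  have s14 : St S N (14303 / 50000) (4099 / 10000) (n1 + 14) := (H.step (n1 + 13) (28757 / 100000) (4103 / 10000) (48793 / 20000) (14303 / 50000) (4099 / 10000) (by omega) (by omega) (by omega) s13 (by norm_num) (by norm_num) (by norm_num) (by norm_num)).1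
  have s15 : St S N (2851 / 10000) (8193 / 20000) (n1 + 15) := (H.step (n1 + 14) (14303 / 50000) (4099 / 10000) (61029 / 25000) (2851 / 10000) (8193 / 20000) (by omega) (by omega) (by omega) s14 (by norm_num) (by norm_num) (by norm_num) (by norm_num)).1
  exact s15.mono (by norm_num) (by norm_num)

/-- growth without the factor `G` -/
theorem Num.grow1 (H : Num S N w n1 n2 M s) (h1 : n1 + 15 ≤ n2) (h2 : n1 + 15 ≤ M) :
    ∀ n, n1 + 15 ≤ n → n ≤ n2 → n ≤ M → St S N (359 / 1250) (25 / 61) n := by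
  intro n hn
  induction n, hn using Nat.le_induction with
  | base => intro _ _; exact H.ramped h1 h2
  | succ n hn ih =>
    intro ha hb
    exact (H.step n (359 / 1250) (25 / 61) (61 / 25) (359 / 1250) (25 / 61) (by omega) (by omega)
      (by omega) (ih (by omega) (by omega)) (by norm_num) (by norm_num) (by norm_num)
      (by norm_num)).1

theorem Num.rate1 (H : Num S N w n1 n2 M s) (h1 : n1 + 15 ≤ n2) (h2 : n1 + 15 ≤ M)
    (n : ℕ) (hn : n1 + 15 ≤ n) (hn2 : n < n2) (hM : n < M) : 61 / 25 * S n ≤ S (n + 1) :=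
  (H.step n (359 / 1250) (25 / 61) (61 / 25) (359 / 1250) (25 / 61) (by omega) (by omega)
      (by omega) (H.grow1 h1 h2 n hn (by omega) (by omega)) (by norm_num) (by norm_num)
      (by norm_num) (by norm_num)).2

/-- growth with the factor `G` -/
theorem Num.grow2 (H : Num S N w n1 n2 M s) (h1 : n1 + 15 + 6 ≤ n2) (h2 : n1 + 15 ≤ M) :
    ∀ n, n2 ≤ n → n ≤ M → St S N (3077 / 10000) (200 / 477) n ∧
      ∀ k, n1 + 15 ≤ k → k < n → 477 / 200 * S k ≤ S (k + 1) := by
  intro n hn
  induction n, hn using Nat.le_induction with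
  | base =>
    intro hM
    refine ⟨(H.grow1 (by omega) h2 n2 (by omega) le_rfl hM).mono (by norm_num) (by norm_num), ?_⟩
    intro k hk hk'
    have a1 := H.rate1 (by omega) h2 k hk hk' (by omega)
    have a2 := H.hS k
    linarith
  | succ n hn ih =>
    intro hM
    obtain ⟨b1, b2⟩ := ih (by omega)
    have hg : (if n2 ≤ n then N (n - 4) else 0) ≤ 689 / 20000 * S n := by
      rw [if_pos hn]
      have c0 := H.hN2 (n - 4) (by omega)
      have c1 := b2 (n - 5) (by omega) (by omega)
      have c2 := b2 (n - 4) (by omega) (by omega)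
      have c3 := b2 (n - 3) (by omega) (by omega)
      have c4 := b2 (n - 2) (by omega) (by omega)
      have c5 := b2 (n - 1) (by omega) (by omega)
      rw [show n - 5 + 1 = n - 4 by omega] at c1
      rw [show n - 4 + 1 = n - 3 by omega] at c2
      rw [show n - 3 + 1 = n - 2 by omega] at c3
      rw [show n - 2 + 1 = n - 1 by omega] at c4
      rw [show n - 1 + 1 = n by omega] at c5
      rw [show n - 4 - 1 = n - 5 by omega] at c0
      have c6 := H.hS n
      linarith
    have hst := H.stepG n (3077 / 10000) (200 / 477) (477 / 200) (3077 / 10000) (200 / 477)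
      (689 / 20000) (by omega) (by omega) hg b1 (by norm_num) (by norm_num) (by norm_num)
      (by norm_num)
    refine ⟨hst.1, ?_⟩
    intro k hk hk'
    rcases Nat.lt_or_ge k n with h | h
    · exact b2 k hk h
    · have : k = n := by omega
      subst this
      exact hst.2

end Pool.Agent.H565.Win
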