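import Pool.Agent.H565.Win.EndN
import Pool.Agent.H401R3.SD.Ends

/-! The end facts for families which are plain from the record time `n1 ≤ 15 s` on. -/

set_option autoImplicit false

namespace Pool.Agent.H565.Win
open Finset Pool.Agent.H378R3.ND
open scoped Classical
open Pool.Agent.H401R3.SD.Wd (val Par EndFacts)
open Pool.Agent.H409R3.Sub (win)

noncomputable section

variable {ok : ℕ → (ℕ → ℕ) → Prop} {ℒ : ℕ → Finset ℕ}

/-- `val` without the factor `G` -/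
def val0 (T s : ℕ) (F : Finset (List ℕ)) (p : ℕ) (c : ℕ → ℕ) : Prop :=
  (∀ t a, 1 ≤ t → t < T → a + 2 * t = p + 1 → ∃ i < t, c (a + i) ≠ c (a + t + i)) ∧
  (∀ a, a + s = p + 1 → win c s a ∉ F) ∧
  (∀ j a, a + s = p + 1 → j + s ≤ a → win c s j ≠ win c s a ∧ win c s j ≠ (win c s a).reverse)

lemma wn_eq_win (s : ℕ) (c : ℕ → ℕ) (i : ℕ) : wn s c i = win c s i := rfl

lemma S_eq (m : ℕ) : Pool.Agent.H401R3.SD.Wd.S ok ℒ m = S ok ℒ m := rfl

lemma not_sq_iff (t p : ℕ) (c : ℕ → ℕ) :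
    ¬ sqAt t p c ↔ ∀ a, a + 2 * t = p + 1 → ∃ i < t, c (a + i) ≠ c (a + t + i) := by
  constructor
  · intro h a ha
    by_contra hc
    push Not at hc
    apply h
    refine ⟨by omega, fun k hk hk' => ?_⟩
    have := hc (k - (a + t)) (by omega)
    rw [show a + t + (k - (a + t)) = k by omega, show a + (k - (a + t)) = k - t by omega] at this
    exact this.symm
  · rintro h ⟨h1, h2⟩
    obtain ⟨i, hi, hne⟩ := h (p + 1 - 2 * t) (by omega)
    apply hne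
    have := h2 (p + 1 - 2 * t + t + i) (by omega) (by omega)
    rw [this]
    congr 1; omega

lemma val0_of {T s : ℕ} {F : Finset (List ℕ)} {p : ℕ} {c : ℕ → ℕ}
    (h1 : ∀ t, 1 ≤ t → t < T → ¬ sqAt t p c) (h2 : ¬ winBad s F p c) : val0 T s F p c := by
  refine ⟨fun t a ht hT ha => (not_sq_iff t p c).1 (h1 t ht hT) a ha, ?_, ?_⟩
  · intro a ha hF
    apply h2
    refine ⟨by omega, Or.inl ?_⟩
    rw [wn_eq_win, show p + 1 - s = a by omega]
    exact hF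
  · intro j a ha hj
    constructor
    · intro he
      apply h2
      refine ⟨by omega, Or.inr ⟨j, by omega, Or.inl ?_⟩⟩
      rw [wn_eq_win, wn_eq_win, show p + 1 - s = a by omega]
      exact he.symm
    · intro he
      apply h2
      refine ⟨by omega, Or.inr ⟨j, by omega, Or.inr ?_⟩⟩
      rw [wn_eq_win, wn_eq_win, show p + 1 - s = a by omega, he, List.reverse_reverse]

/-- hypotheses on the family -/
structure Leg1 (ok : ℕ → (ℕ → ℕ) → Prop) (ℒ : ℕ → Finset ℕ) (s : ℕ) (F : Finset (List ℕ))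
    (n1 : ℕ) : Prop where
  loc : Local ok
  h1 : s ≤ n1
  h15 : n1 ≤ 15 * s
  pos : 0 < S ok ℒ n1
  rec0 : ∀ j ≤ n1, S ok ℒ j ≤ (10 / 17) ^ (n1 - j) * S ok ℒ n1
  sound1 : ∀ n c, ok n c → ¬ sqAt 1 n c
  sound2 : ∀ n c, ok n c → ¬ sqAt 2 n c
  card : ∀ k, n1 ≤ k → (ℒ k).card = 4

theorem num_of {s : ℕ} {F : Finset (List ℕ)} {n1 : ℕ} (H : Leg1 ok ℒ s F n1) {n2 M : ℕ} (G : List ℕ)
    (hs : 5 ≤ s) (hplain : ∀ n, n1 ≤ n → ∀ c ∈ U ok ℒ n, (∀ t, 1 ≤ t → t < 12 * s → ¬ sqAt t n c) →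
      ¬ winBad s F n c → (n2 ≤ n → ¬ gBad G n c) → ok n c)
    (hw : ∀ n, n < M → ((F.card : ℚ) + 2 * ((n : ℚ) + 1)) * (11 / 8 * (2 / 3) ^ (s - 1)) ≤ 1 / 20000) :
    Num (S ok ℒ) (N ok ℒ) (fun n => (F.card : ℚ) + 2 * ((n : ℚ) + 1)) n1 n2 M s where
  hS := S_nonneg
  hNS := N_le_S
  hN2 := N_le H.loc H.sound2
  hs := by omega
  hsn := by have := H.h1; omega
  h5 := by have := H.h1; omega
  h0 := H.pos
  rec0 := H.rec0
  rec1 := by
    intro n hn hM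
    have h1 := H.h1
    have P : Plain ok ℒ (12 * s) s F G 0 n1 n2 :=
      ⟨H.loc, H.sound1, H.sound2, hplain, fun _ _ _ _ _ _ _ _ => Nat.zero_le _⟩
    have := rec_ineq (by omega) P n hn (by omega) (by omega) (H.card n hn)
    rw [← range_eq_Ico] at this
    exact this
  hw := fun n _ hM => ⟨by positivity, hw n hM⟩

/-- the choice of `s` -/
theorem choose_num (K : ℕ) : ∃ s0 : ℕ, 21 ≤ s0 ∧ ∀ s : ℕ, s0 ≤ s →
    (∀ F : Finset (List ℕ), F.card ≤ K * s → ∀ n, n < 40 * s →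
      ((F.card : ℚ) + 2 * ((n : ℚ) + 1)) * (11 / 8 * (2 / 3) ^ (s - 1)) ≤ 1 / 20000) ∧
    ∀ m a, m ≤ 40 * s → a + s ≤ m →
      ((m : ℚ) + 1) ^ 2 * (11 / 8 * (2 / 3) ^ (m - a)) ≤ 1 / 10000 := by
  obtain ⟨s1, hs1⟩ := choose_s (3 / 2) (by norm_num) (8 / 11 / 20000) (by norm_num) (K + 80)
  have h2 : Filter.Tendsto (fun n : ℕ => (n : ℝ) ^ 2 * ((2 / 3 : ℝ)) ^ n) Filter.atTop
      (nhds 0) := by
    apply tendsto_pow_const_mul_const_pow_of_abs_lt_one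
    rw [abs_of_pos (by positivity)]
    norm_num
  have h3 := h2.eventually (gt_mem_nhds (show (0 : ℝ) < 1 / 10000 / (41 ^ 2 * (11 / 8)) by norm_num))
  rw [Filter.eventually_atTop] at h3
  obtain ⟨s2, hs2⟩ := h3
  refine ⟨max 21 (max s1 s2), le_max_left _ _, fun s hs => ⟨?_, ?_⟩⟩
  · intro F hF n hn
    have h4 := hs1 s (by have := le_max_left s1 s2; omega)
    have h21 : 21 ≤ s := (le_max_left _ _).trans hs
    have e1 : (F.card : ℚ) ≤ K * s := by exact_mod_cast hF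
    have e2 : (n : ℚ) + 1 ≤ 40 * s := by exact_mod_cast hn
    have e3 : (F.card : ℚ) + 2 * ((n : ℚ) + 1) ≤ ((K + 80 : ℕ) : ℚ) * s := by push_cast; linarith
    have e4 : (1 / (3 / 2) : ℚ) = 2 / 3 := by norm_num
    rw [e4] at h4
    have e5 : (0 : ℚ) ≤ (2 / 3) ^ (s - 1) := by positivity
    have e6 := mul_le_mul_of_nonneg_right e3 e5
    linarith
  · intro m a hm ha
    have h4 := hs2 s (by have := le_max_right s1 s2; have := le_max_right 21 (max s1 s2); omega)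
    have h21 : 21 ≤ s := (le_max_left _ _).trans hs
    have e0 : (s : ℝ) ^ 2 * (2 / 3 : ℝ) ^ s ≤ 1 / 10000 / (41 ^ 2 * (11 / 8)) := h4.le
    have e1 : (s : ℚ) ^ 2 * (2 / 3 : ℚ) ^ s ≤ 1 / 10000 / (41 ^ 2 * (11 / 8)) := by
      have : (((s : ℚ) ^ 2 * (2 / 3 : ℚ) ^ s : ℚ) : ℝ) ≤
          ((1 / 10000 / (41 ^ 2 * (11 / 8)) : ℚ) : ℝ) := by
        push_cast; exact e0
      exact_mod_cast this
    have e2 : ((2 : ℚ) / 3) ^ (m - a) ≤ (2 / 3) ^ s :=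
      pow_le_pow_of_le_one (by norm_num) (by norm_num) (by omega)
    have e3 : (m : ℚ) + 1 ≤ 41 * s := by exact_mod_cast (by omega : m + 1 ≤ 41 * s)
    have e4 : ((m : ℚ) + 1) ^ 2 ≤ (41 * s) ^ 2 := pow_le_pow_left₀ (by positivity) e3 2
    calc ((m : ℚ) + 1) ^ 2 * (11 / 8 * (2 / 3) ^ (m - a))
        ≤ (41 * s) ^ 2 * (11 / 8 * (2 / 3) ^ s) := by
          apply mul_le_mul e4 _ (by positivity) (by positivity)
          linarith
      _ = 41 ^ 2 * (11 / 8) * ((s : ℚ) ^ 2 * (2 / 3 : ℚ) ^ s) := by ring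
      _ ≤ 41 ^ 2 * (11 / 8) * (1 / 10000 / (41 ^ 2 * (11 / 8))) :=
          mul_le_mul_of_nonneg_left e1 (by norm_num)
      _ = 1 / 10000 := by norm_num

/-- end facts without the factor `G` -/
theorem end1 {s : ℕ} {F : Finset (List ℕ)} {n1 : ℕ} (hs : 21 ≤ s) (H : Leg1 ok ℒ s F n1)
    (hplain : ∀ n, n1 ≤ n → ∀ c, val0 (12 * s) s F n c → ok n c)
    (hw : ∀ n, n < 40 * s → ((F.card : ℚ) + 2 * ((n : ℚ) + 1)) * (11 / 8 * (2 / 3) ^ (s - 1)) ≤ 1 / 20000)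
    (hε : ∀ m a, m ≤ 40 * s → a + s ≤ m →
      ((m : ℚ) + 1) ^ 2 * (11 / 8 * (2 / 3) ^ (m - a)) ≤ 1 / 10000) :
    ∀ m, 39 * s ≤ m → m ≤ 40 * s → EndFacts ok ℒ (61 / 25) (1 / 10000) m (12 * s) := by
  intro m hm1 hm2
  have h15 := H.h15
  have h1 := H.h1
  have Q : Num (S ok ℒ) (N ok ℒ) (fun n => (F.card : ℚ) + 2 * ((n : ℚ) + 1)) n1 (40 * s) (40 * s) s := by
    have Q' := num_of H (n2 := 40 * s) (M := 40 * s) [] (by omega) (fun n hn c _ ha hb _ =>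
      hplain n hn c (val0_of ha hb)) hw
    exact Q'
  have hst := Q.grow1 (by omega) (by omega) m (by omega) hm2 hm2
  have hrate : ∀ k, 16 * s ≤ k → k < m → 61 / 25 * S ok ℒ k ≤ S ok ℒ (k + 1) := fun k hk hk' =>
    Q.rate1 (by omega) (by omega) k (by omega) (by omega) (by omega)
  have := endNum (S := S ok ℒ) (N := N ok ℒ) (a := 16 * s) (m := m) (D := 12 * s) (β := 61 / 25)
    (ε := 1 / 10000) (by norm_num) S_nonneg (N_le H.loc H.sound2) (by omega) (by omega) hrate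
    hst.2.2.2 (hε m (16 * s) hm2 (by omega))
  exact ⟨H.loc, hst.1, this.1, this.2⟩

/-- end facts with the factor `G` at the places `≥ 16 s` -/
theorem end2 {s : ℕ} {F : Finset (List ℕ)} {G : List ℕ} {n1 : ℕ} (hs : 21 ≤ s)
    (H : Leg1 ok ℒ s F n1)
    (hplain : ∀ n, n1 ≤ n → ∀ c, val0 (12 * s) s F n c →
      (16 * s ≤ n → ∀ a, a + 5 = n + 1 → win c 5 a ≠ G) → ok n c)
    (hw : ∀ n, n < 40 * s → ((F.card : ℚ) + 2 * ((n : ℚ) + 1)) * (11 / 8 * (2 / 3) ^ (s - 1)) ≤ 1 / 20000)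
    (hε : ∀ m a, m ≤ 40 * s → a + s ≤ m →
      ((m : ℚ) + 1) ^ 2 * (11 / 8 * (2 / 3) ^ (m - a)) ≤ 1 / 10000) :
    ∀ m, 39 * s ≤ m → m ≤ 40 * s → EndFacts ok ℒ (477 / 200) (1 / 10000) m (12 * s) := by
  intro m hm1 hm2
  have h15 := H.h15
  have h1 := H.h1
  have Q : Num (S ok ℒ) (N ok ℒ) (fun n => (F.card : ℚ) + 2 * ((n : ℚ) + 1)) n1 (16 * s) (40 * s) s := by
    refine num_of H (n2 := 16 * s) (M := 40 * s) G (by omega) (fun n hn c _ ha hb hg =>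
      hplain n hn c (val0_of ha hb) (fun h16 a ha' hG => hg h16 ⟨by omega, ?_⟩)) hw
    rw [wn_eq_win, show n + 1 - 5 = a by omega]
    exact hG
  have hst := Q.grow2 (by omega) (by omega) m (by omega) hm2
  have hrate : ∀ k, 16 * s ≤ k → k < m → 477 / 200 * S ok ℒ k ≤ S ok ℒ (k + 1) := fun k hk hk' =>
    hst.2 k (by omega) hk'
  have := endNum (S := S ok ℒ) (N := N ok ℒ) (a := 16 * s) (m := m) (D := 12 * s) (β := 477 / 200)
    (ε := 1 / 10000) (by norm_num) S_nonneg (N_le H.loc H.sound2) (by omega) (by omega) hrate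
    hst.1.2.2.2 (hε m (16 * s) hm2 (by omega))
  exact ⟨H.loc, hst.1.1, this.1, this.2⟩

end
end Pool.Agent.H565.Win
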